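import Pool.Agent.N554.RG.Upper
import Pool.Agent.N554.RG.Lower

/-!
# Rogers' constants differ in dimension five

For the Euclidean unit ball of `ℝ⁵` the simultaneous packing and covering constant `γ₅` is smaller
than the lattice simultaneous packing and covering constant `γ*₅`.

* Upper bound `γ₅ ≤ 9/(2√10) = 1.4230...`: the explicit set `Pool.Agent.N554.RG.pts`, a union of two
  translates of a lattice.
* Lower bound `γ*₅ ≥ √2.03 = 1.4247...`: every lattice of `ℝ⁵` has a frame `f₁, ..., f₅` (the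
  lattice being the set of the `∑ cᵢ fᵢ / 2` with `cᵢ` of equal parity) with
  `∑_{j ≠ i} |⟨fᵢ, fⱼ⟩| ≤ ⟨fᵢ, fᵢ⟩` for all `i`, hence its squared norm is a nonnegative
  combination of squares of integral functionals, and 256 certificates of linear programming
  finish the proof.
-/

set_option autoImplicit false

namespace Pool.Agent.Results.MP_5cea3d_gt.LatticeGapFive

/-- A set of centres `P` gives a packing of unit balls: distinct points of `P` have distance at
least `2`. -/
def IsPacking {n : ℕ} (P : Set (EuclideanSpace ℝ (Fin n))) : Prop :=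
  ∀ x ∈ P, ∀ y ∈ P, x ≠ y → 2 ≤ ‖x - y‖

/-- The balls of radius `r` around the points of `P` cover the space. -/
def IsCovering {n : ℕ} (r : ℝ) (P : Set (EuclideanSpace ℝ (Fin n))) : Prop :=
  ∀ x : EuclideanSpace ℝ (Fin n), ∃ p ∈ P, ‖x - p‖ ≤ r

/-- The simultaneous packing and covering constant of the Euclidean unit ball of `ℝⁿ`. -/
noncomputable def gamma (n : ℕ) : ℝ :=
  sInf {r : ℝ | 0 < r ∧ ∃ P : Set (EuclideanSpace ℝ (Fin n)), IsPacking P ∧ IsCovering r P}

/-- The lattice simultaneous packing and covering constant of the Euclidean unit ball of `ℝⁿ`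
(a packing additive subgroup is discrete). -/
noncomputable def gammaLattice (n : ℕ) : ℝ :=
  sInf {r : ℝ | 0 < r ∧ ∃ L : AddSubgroup (EuclideanSpace ℝ (Fin n)),
    IsPacking (L : Set (EuclideanSpace ℝ (Fin n))) ∧
    IsCovering r (L : Set (EuclideanSpace ℝ (Fin n)))}

lemma upper : gamma 5 ≤ 9 / (2 * Real.sqrt 10) := by
  have h10 : (0 : ℝ) < Real.sqrt 10 := Real.sqrt_pos.2 (by norm_num)
  exact csInf_le ⟨0, fun r hr => hr.1.le⟩
    ⟨by positivity, Pool.Agent.N554.RG.pts, Pool.Agent.N554.RG.pts_separated,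
      Pool.Agent.N554.RG.pts_dense⟩

/-- The lattice of the vectors with even coordinates. -/
def evens : AddSubgroup (EuclideanSpace ℝ (Fin 5)) where
  carrier := {x | ∀ i, ∃ n : ℤ, x i = 2 * n}
  zero_mem' := fun i => ⟨0, by simp⟩
  add_mem' := by
    intro a b ha hb i
    obtain ⟨n, hn⟩ := ha i
    obtain ⟨m, hm⟩ := hb i
    exact ⟨n + m, by rw [PiLp.add_apply, hn, hm]; push_cast; ring⟩
  neg_mem' := by
    intro a ha i
    obtain ⟨n, hn⟩ := ha i
    exact ⟨-n, by rw [PiLp.neg_apply, hn]; push_cast; ring⟩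

lemma evens_packing : IsPacking (evens : Set (EuclideanSpace ℝ (Fin 5))) := by
  intro x hx y hy hxy
  obtain ⟨i, hi⟩ : ∃ i, x i ≠ y i := by
    by_contra h
    push Not at h
    exact hxy (PiLp.ext h)
  obtain ⟨n, hn⟩ := hx i
  obtain ⟨m, hm⟩ := hy i
  have h1 : n ≠ m := by
    intro h
    apply hi
    rw [hn, hm, h]
  have h2 : (1 : ℝ) ≤ |(n : ℝ) - m| := by
    have : (1 : ℤ) ≤ |n - m| := Int.one_le_abs (sub_ne_zero.2 h1)
    exact_mod_cast this
  have h3 : ‖(x - y) i‖ ≤ ‖x - y‖ := PiLp.norm_apply_le _ i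
  rw [PiLp.sub_apply, hn, hm, Real.norm_eq_abs, ← mul_sub, abs_mul] at h3
  norm_num at h3
  linarith

lemma evens_covering : IsCovering (Real.sqrt 5) (evens : Set (EuclideanSpace ℝ (Fin 5))) := by
  intro x
  refine ⟨WithLp.toLp 2 fun i => 2 * (round (x i / 2) : ℝ), fun i => ⟨round (x i / 2), rfl⟩, ?_⟩
  rw [EuclideanSpace.norm_eq]
  apply Real.sqrt_le_sqrt
  have h : ∀ i, ‖(x - WithLp.toLp 2 fun i => 2 * (round (x i / 2) : ℝ)) i‖ ^ 2 ≤ 1 := by
    intro i
    have h1 := abs_sub_round (x i / 2)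
    have h2 : (x - WithLp.toLp 2 fun i => 2 * (round (x i / 2) : ℝ)) i =
        2 * (x i / 2 - round (x i / 2)) := by
      rw [PiLp.sub_apply]
      ring
    rw [h2, norm_mul, Real.norm_eq_abs, Real.norm_eq_abs, abs_two]
    nlinarith [abs_nonneg (x i / 2 - round (x i / 2))]
  calc _ ≤ ∑ _i : Fin 5, (1 : ℝ) := Finset.sum_le_sum fun i _ => h i
    _ = 5 := by simp

lemma lower : Real.sqrt (203/100) ≤ gammaLattice 5 := by
  apply le_csInf
  · exact ⟨Real.sqrt 5, by positivity, evens, evens_packing, evens_covering⟩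
  · rintro r ⟨hr, L, hL1, hL2⟩
    have h := Pool.Agent.N554.RG.lattice_bound L r hL2 hL1
    exact Real.sqrt_le_iff.2 ⟨hr.le, h⟩

/-- Rogers' constants differ in dimension five: `γ₅ < γ*₅`, more precisely
`γ₅ ≤ 9/(2√10) = 1.4230... < 1.4247... = √2.03 ≤ γ*₅`. -/
theorem result : gamma 5 < gammaLattice 5 ∧ gamma 5 ≤ 9 / (2 * Real.sqrt 10) ∧
    Real.sqrt (203/100) ≤ gammaLattice 5 := by
  refine ⟨?_, upper, lower⟩
  refine lt_of_le_of_lt upper (lt_of_lt_of_le ?_ lower)
  apply Real.lt_sqrt_of_sq_lt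
  rw [div_pow, mul_pow, Real.sq_sqrt (by norm_num)]
  norm_num

end Pool.Agent.Results.MP_5cea3d_gt.LatticeGapFive
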